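import Pool.Agent.Helper84.PCF.Box

set_option autoImplicit false

namespace Pool.Agent.Results.MP_f4c142_pr.ClusterSizes

open Finset Pool.Agent.Helper84.PCF
open scoped Classical

/-- **The clusters of percolation with constant freezing are large at small rate.**
Let `d ≥ 2`, `α > 0` and let `s` be a natural number.
(1) For every finite set `B` of points of `ℤ^d` the expected number of points of `B` whose cluster in
the final configuration of percolation with constant freezing on (the graph induced on) `B` has at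
most `s` points is at most `(√s / 2) (d |B| - |E(B)| / (1 + 2 α))`.
(2) For the boxes `{0, ..., n - 1} ^ d` it is at most `d √s (α + 1 / (2 n)) n ^ d`. -/
theorem result (d : ℕ) (hd : 2 ≤ d) (α : ℝ) (hα : 0 < α) (s : ℕ) :
    (∀ B : Finset (Fin d → ℤ), pcf (edges B) α
        (fun O => ((univ.filter (fun x : {x // x ∈ B} => (cluster O x).card ≤ s)).card : ℝ)) ≤
      Real.sqrt s / 2 * (d * B.card - (edges B).card / (1 + 2 * α))) ∧
    (∀ n : ℕ, 1 ≤ n → pcf (edges (box d n)) α
        (fun O => ((univ.filter (fun x : {x // x ∈ box d n} => (cluster O x).card ≤ s)).card : ℝ)) ≤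
      d * Real.sqrt s * (α + 1 / (2 * n)) * (n : ℝ) ^ d) := by
  refine ⟨fun B => region hd B hα s, fun n hn => ?_⟩
  refine (region hd (box d n) hα s).trans ?_
  obtain ⟨m, rfl⟩ : ∃ m, n = m + 1 := ⟨n - 1, by omega⟩
  have h1 : ((d * (m * (m + 1) ^ (d - 1)) : ℕ) : ℝ) ≤ (edges (box d (m + 1))).card := by
    exact_mod_cast card_edges_box d m
  push_cast at h1
  rw [card_box]
  have hpow : ((m : ℝ) + 1) ^ d = (m + 1) * (m + 1) ^ (d - 1) := by
    rw [← pow_succ']
    congr 1
    omega
  push_cast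
  rw [hpow]
  set P : ℝ := ((m : ℝ) + 1) ^ (d - 1) with hP
  have hP0 : 0 ≤ P := by positivity
  have hm0 : (0 : ℝ) ≤ m := Nat.cast_nonneg m
  have hd0 : (0 : ℝ) ≤ d := Nat.cast_nonneg d
  have hα2 : (0 : ℝ) < 1 + 2 * α := by linarith
  have h2 : d * ((m : ℝ) * P) / (1 + 2 * α) ≤ (edges (box d (m + 1))).card / (1 + 2 * α) :=
    div_le_div_of_nonneg_right h1 hα2.le
  have h3 : d * (((m : ℝ) + 1) * P) - d * ((m : ℝ) * P) / (1 + 2 * α) ≤
      d * P * (2 * α * (m + 1) + 1) := by
    have h4 : d * ((m : ℝ) * P) * (1 - 2 * α) ≤ d * ((m : ℝ) * P) / (1 + 2 * α) := by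
      rw [le_div_iff₀ hα2]
      have h5 : (1 - 2 * α) * (1 + 2 * α) ≤ 1 := by nlinarith [sq_nonneg α]
      have h6 : 0 ≤ d * ((m : ℝ) * P) := by positivity
      calc d * ((m : ℝ) * P) * (1 - 2 * α) * (1 + 2 * α) =
          d * ((m : ℝ) * P) * ((1 - 2 * α) * (1 + 2 * α)) := by ring
        _ ≤ d * ((m : ℝ) * P) * 1 := mul_le_mul_of_nonneg_left h5 h6
        _ = d * ((m : ℝ) * P) := mul_one _
    have h7 : 0 ≤ d * P * (2 * α) := by positivity
    nlinarith
  have h8 : 0 ≤ Real.sqrt (s : ℝ) / 2 := by positivity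
  have h9 : d * (((m : ℝ) + 1) * P) - (edges (box d (m + 1))).card / (1 + 2 * α) ≤
      d * P * (2 * α * (m + 1) + 1) := by linarith
  refine (mul_le_mul_of_nonneg_left h9 h8).trans (le_of_eq ?_)
  have hm1 : ((m : ℝ) + 1) ≠ 0 := by positivity
  field_simp

end Pool.Agent.Results.MP_f4c142_pr.ClusterSizes
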